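import Mathlib

/-! The choice of the group sizes. -/

open Finset

namespace Pool.Agent.P.MP_96b1db_co.Sh

/-- twice the number of pairs of leaves at the distance of a level -/
def psi (h A m : ℤ) : ℤ := A ^ 2 - (A - 2 * h * m) ^ 2 - 2 * h * m ^ 2

theorem step {h q n A t L : ℕ} (hn : n = (2 * h + 1) * q) (hA : A ≤ n) (ht : 0 < t)
    (hL : L = (2 * h + 1) * q ^ 2 + 4 * h * n + 4 * h ^ 2) (h1 : 2 * t + L ≤ A ^ 2) :
    ∃ m B : ℕ, A = B + 2 * h * m ∧ 2 * (t : ℤ) ≤ psi h A m ∧ psi h A m ≤ 2 * t + 4 * h * n ∧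
      t ≤ 2 * h * n * m ∧ A ^ 2 ≤ B ^ 2 + 2 * t + L := by
  obtain ⟨m0, s, e, hs⟩ : ∃ m0 s, A = (2 * h + 1) * m0 + s ∧ s ≤ 2 * h :=
    ⟨A / (2 * h + 1), A % (2 * h + 1), (Nat.div_add_mod _ _).symm,
      Nat.lt_succ_iff.1 (Nat.mod_lt _ (by omega))⟩
  have q0 : m0 ≤ q := Nat.le_of_mul_le_mul_left (c := 2 * h + 1) (by omega) (by omega)
  have qn : q ≤ n := by rw [hn]; nlinarith
  have k0 : 2 * (t : ℤ) ≤ psi h A m0 := by
    have a1 : (m0 + s) ^ 2 + 2 * h * m0 ^ 2 ≤ L := by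
      have b1 : m0 ^ 2 ≤ q ^ 2 := Nat.pow_le_pow_left q0 2
      have b2 : m0 * s ≤ n * (2 * h) := Nat.mul_le_mul (q0.trans qn) hs
      have b3 : s ^ 2 ≤ (2 * h) ^ 2 := Nat.pow_le_pow_left hs 2
      nlinarith
    have a2 : ((A : ℤ) - 2 * h * m0) = m0 + s := by rw [e]; push_cast; ring
    rw [psi, a2]
    zify at a1 h1
    linarith
  classical
  have ex : ∃ m : ℕ, 2 * (t : ℤ) ≤ psi h A m := ⟨m0, k0⟩
  have m1 := Nat.find_spec ex
  have m2 : Nat.find ex ≤ m0 := Nat.find_min' ex k0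
  have m3 := fun m => Nat.find_min ex (m := m)
  generalize Nat.find ex = m at *
  obtain _ | m := m
  · simp [psi] at m1; omega
  have m4 := not_le.1 (m3 m (by omega))
  have l1 : 2 * h * (m + 1) ≤ A := by nlinarith
  obtain ⟨B, hB⟩ := Nat.exists_eq_add_of_le' l1
  have l2 : psi h A (m + 1 : ℕ) ≤ 2 * t + 4 * h * n := by
    have : (h : ℤ) * A ≤ h * n := by exact_mod_cast Nat.mul_le_mul_left h hA
    have : (0 : ℤ) ≤ h * h * (2 * m + 1) := by positivity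
    have : (0 : ℤ) ≤ h * (2 * m + 1) := by positivity
    simp only [psi] at m4 ⊢
    push_cast
    nlinarith
  refine ⟨m + 1, B, hB, m1, l2, ?_, ?_⟩
  · have a1 : (h : ℤ) * (m + 1) * A ≤ h * (m + 1) * n := by
      exact_mod_cast Nat.mul_le_mul_left (h * (m + 1)) hA
    have a2 : (0 : ℤ) ≤ (h * (m + 1)) ^ 2 := by positivity
    have a3 : (0 : ℤ) ≤ h * (m + 1) ^ 2 := by positivity
    simp only [psi] at m1
    zify
    push_cast at m1 ⊢
    nlinarith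
  · have a2 : ((A : ℤ) - 2 * h * (m + 1 : ℕ)) = B := by rw [hB]; push_cast; ring
    rw [psi, a2] at l2
    have b1 : (m + 1) ^ 2 ≤ q ^ 2 := Nat.pow_le_pow_left (m2.trans q0) 2
    have b2 : 2 * h * (m + 1) ^ 2 + 4 * h * n ≤ L := by nlinarith
    zify at b2 ⊢
    push_cast at l2
    linarith

theorem down {h q n L : ℕ} (hn : n = (2 * h + 1) * q)
    (hL : L = (2 * h + 1) * q ^ 2 + 4 * h * n + 4 * h ^ 2) (t : ℕ → ℕ) (E : ℕ) :
    ∀ A ≤ n, (∀ k < E, 0 < t k) → 2 * ∑ k ∈ range E, t k + E * L ≤ A ^ 2 →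
      ∃ (a : ℕ) (m : ℕ → ℕ), A = a + 2 * h * ∑ k ∈ range E, m k ∧ ∀ k < E,
        2 * (t k : ℤ) ≤ psi h (a + 2 * h * ∑ j ∈ range (k + 1), m j : ℕ) (m k) ∧
        psi h (a + 2 * h * ∑ j ∈ range (k + 1), m j : ℕ) (m k) ≤ 2 * t k + 4 * h * n ∧
        t k ≤ 2 * h * n * m k := by
  induction E with
  | zero => exact fun A _ _ _ => ⟨A, 0, by simp, fun k hk => by omega⟩
  | succ E ih =>
    intro A hA ht h1
    rw [sum_range_succ, add_mul] at h1
    obtain ⟨m0, B, e, a1, a2, a3, a4⟩ := step hn hA (ht E (by omega)) hL (by omega)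
    obtain ⟨a, m, e1, b⟩ := ih B (by omega) (fun k hk => ht k (by omega)) (by omega)
    have s1 : ∀ k ≤ E, ∑ j ∈ range k, Function.update m E m0 j = ∑ j ∈ range k, m j :=
      fun k hk => sum_congr rfl fun j hj =>
        Function.update_of_ne (by have := mem_range.1 hj; omega) _ _
    have s2 : a + 2 * h * ∑ j ∈ range (E + 1), Function.update m E m0 j = A := by
      rw [sum_range_succ, s1 E le_rfl, Function.update_self, e, e1]; ring
    refine ⟨a, Function.update m E m0, s2.symm, fun k hk => ?_⟩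
    rcases (Nat.lt_succ_iff.1 hk).eq_or_lt with rfl | l
    · rw [s2, Function.update_self]; exact ⟨a1, a2, a3⟩
    · rw [s1 _ l, Function.update_of_ne l.ne]; exact b k l

theorem sizes (E f1 : ℕ) (f : ℕ → ℕ) (h1 : 0 < f1) (hf : ∀ k < E, 0 < f k) :
    ∃ e : ℕ, ∀ I : ℕ, ∃ (n c a : ℕ) (m : ℕ → ℕ), 0 < c ∧ 2 ≤ n ∧
      n = a + 2 * (e + 4) * ∑ k ∈ range E, m k + I ∧
      n * n = 2 * c * (f1 + ∑ k ∈ range E, f k) + n ∧ ∀ k < E,
        2 * (c * f k : ℕ) ≤ psi (e + 4 : ℕ) (a + 2 * (e + 4) * ∑ j ∈ range (k + 1), m j : ℕ) (m k) ∧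
        psi (e + 4 : ℕ) (a + 2 * (e + 4) * ∑ j ∈ range (k + 1), m j : ℕ) (m k) + 2 * I * n ≤
          2 * (c * f k : ℕ) + 2 * (m k : ℤ) ^ 2 := by
  generalize hS : ∑ k ∈ range E, f k = S
  obtain ⟨F, hF⟩ : ∃ F, F = f1 + S := ⟨_, rfl⟩
  refine ⟨E * F, fun I => ?_⟩
  obtain ⟨h, hh⟩ : ∃ h, h = E * F + 4 := ⟨_, rfl⟩
  rw [← hh, ← hF]
  obtain ⟨u, hu⟩ : ∃ u, u = (2 * h + I) * (2 * F * (2 * h + 1)) + (4 * h * E + 2 * I + 4 * h ^ 2 * E) :=
    ⟨_, rfl⟩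
  have F0 : 1 ≤ F := by omega
  have h0 : 4 ≤ h := by omega
  have u1 : (2 * h + I) * (2 * F * (2 * h + 1)) ≤ u := by omega
  have u2 : 4 * h * E + 2 * I + 4 * h ^ 2 * E ≤ u := by omega
  have u0 : 1 ≤ u := le_trans (Nat.mul_pos (by omega) (by positivity)) u1
  obtain ⟨n, hn⟩ : ∃ n, n = (2 * h + 1) * (2 * F * u) := ⟨_, rfl⟩
  have n1 : 2 * ((2 * h + 1) * u) ≤ n := by
    have := Nat.mul_le_mul_left (2 * ((2 * h + 1) * u)) F0
    nlinarith
  have n2 : 2 * h + 1 ≤ (2 * h + 1) * u := Nat.le_mul_of_pos_right _ u0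
  have n3 : u ≤ (2 * h + 1) * u := Nat.le_mul_of_pos_left _ (by omega)
  obtain ⟨N, rfl⟩ : ∃ N, n = N + 1 := ⟨n - 1, by omega⟩
  obtain ⟨A, hA⟩ : ∃ A, N + 1 = A + I := ⟨N + 1 - I, by omega⟩
  obtain ⟨c, hc⟩ : ∃ c, c = (2 * h + 1) * u * N := ⟨_, rfl⟩
  have c0 : 0 < c := hc ▸ Nat.mul_pos (by omega) (by omega)
  have e1 : (N + 1) * (N + 1) = 2 * c * F + (N + 1) := by
    have : 2 * c * F = (N + 1) * N := by rw [hc, hn]; ring
    rw [this]; ring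
  obtain ⟨a, m, e2, b⟩ := down hn rfl (fun k => c * f k) E A (by omega)
    (fun k hk => Nat.mul_pos c0 (hf k hk)) (by
      rw [← mul_sum, hS]
      have a1 : E * ((2 * h + 1) * (2 * F * u) ^ 2) = 2 * (E * F) * u * (N + 1) := by
        rw [hn]; ring
      have a2 : c ≤ c * f1 := Nat.le_mul_of_pos_right _ h1
      have a3 : (4 * h * E + 2 * I + 4 * h ^ 2 * E) * (N + 1) ≤ u * (N + 1) :=
        Nat.mul_le_mul_right _ u2
      have a4 : 2 * c + 2 * ((2 * h + 1) * u) = 2 * (2 * h + 1) * (u * (N + 1)) := by rw [hc]; ring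
      have a5 : (N + 1) * (N + 1) ≤ A ^ 2 + 2 * I * (N + 1) := by rw [hA]; nlinarith
      have a6 : 2 * (E * F) * u * (N + 1) + u * (N + 1) ≤ 2 * (2 * h + 1) * (u * (N + 1)) := by
        have := Nat.mul_le_mul_right (u * (N + 1)) (show 2 * (E * F) + 1 ≤ 2 * (2 * h + 1) by omega)
        nlinarith
      have a7 : 0 ≤ 4 * h ^ 2 * E * N := Nat.zero_le _
      rw [hF] at e1
      nlinarith)
  refine ⟨N + 1, c, a, m, c0, by omega, by omega, e1, fun k hk => ⟨(b k hk).1, ?_⟩⟩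
  obtain ⟨-, b2, b3⟩ := b k hk
  have a1 : c ≤ c * f k := Nat.le_mul_of_pos_right _ (hf k hk)
  have a2 : 2 * h * (N + 1) * u ≤ c := by
    have := Nat.mul_le_mul_right u (show 2 * h ≤ N by omega)
    rw [hc]; nlinarith
  have a3 : u ≤ m k := Nat.le_of_mul_le_mul_left (a2.trans (a1.trans b3)) (by positivity)
  have a4 : (2 * h + I) * (N + 1) ≤ m k ^ 2 := by
    have := Nat.mul_le_mul u1 a3
    have := Nat.mul_le_mul_right (m k) a3
    have := Nat.mul_le_mul_right u u1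
    have := Nat.mul_le_mul_left u a3
    rw [hn]; nlinarith
  zify at a4
  push_cast at b2 ⊢
  linarith

theorem squares (e y : ℕ) : ∃ x : ℕ → ℕ, ∑ i ∈ range (e + 4), x i ^ 2 = y := by
  obtain ⟨a, b, c, d, h⟩ := Nat.sum_four_squares y
  exact ⟨fun i => [a, b, c, d].getD i 0, by simp [sum_range_succ']; omega⟩

end Pool.Agent.P.MP_96b1db_co.Sh
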