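import Pool.Agent.P.MP_96b1db_co.Sh.Met
import Pool.Agent.P.MP_96b1db_co.Sh.Ari

/-! The half-square of a rooted caterpillar with long legs. -/

open Polynomial Finset

namespace Pool.Agent.P.MP_96b1db_co.Sh

/-- the spine and the legs -/
abbrev Br (E h : ℕ) := Option (Fin E × Fin h × Bool)

variable {E h : ℕ}

/-- the height at which a leg leaves the spine -/
def lv : Br E h → ℕ
  | none => 0
  | some p => p.1 + 2

/-- the first height that is not on the branch -/
def tp : Br E h → ℕ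
  | none => E + 2
  | some p => p.1 + 2

/-- the height at which two branches meet -/
def mu (b c : Br E h) : ℕ := if b = c then 1 else max (lv b) (lv c)

/-- the distance of two nodes of even height -/
def rho (u v : Br E h × ℕ) : ℕ := max (mu u.1 v.1) (max (2 * u.2) (2 * v.2)) - u.2 - v.2

/-- the exchange of the two legs of each pair -/
def flip : Br E h ≃ Br E h := Equiv.optionCongr
  ((Equiv.refl _).prodCongr ((Equiv.refl _).prodCongr ⟨not, not, Bool.not_not, Bool.not_not⟩))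

theorem lv_flip (b : Br E h) : lv (flip b) = lv b := by cases b <;> rfl

theorem tp_flip (b : Br E h) : tp (flip b) = tp b := by cases b <;> rfl

theorem mu_flip (b c : Br E h) : mu (flip b) (flip c) = mu b c := by
  simp only [mu, lv_flip, Equiv.apply_eq_iff_eq]

theorem lv_tp (b : Br E h) : (b = none ∧ lv b = 0 ∧ tp b = E + 2) ∨
    (b ≠ none ∧ lv b = tp b ∧ 2 ≤ lv b ∧ lv b ≤ E + 1) := by
  rcases b with _ | p
  · exact .inl ⟨rfl, rfl, rfl⟩
  · exact .inr ⟨by simp, rfl, by simp [lv], by have := p.1.2; simp only [lv]; omega⟩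

/-- the inner nodes -/
def inn (E h : ℕ) : Finset (Br E h × ℕ) :=
  (univ ×ˢ range (E + 2)).filter fun u => 1 ≤ u.2 ∧ 2 * u.2 < tp u.1

theorem mem_inn {u : Br E h × ℕ} : u ∈ inn E h ↔ 1 ≤ u.2 ∧ 2 * u.2 < tp u.1 := by
  have := lv_tp u.1
  simp only [inn, mem_filter, mem_product, mem_univ, mem_range, true_and]
  omega

variable (w : Br E h → ℕ)

/-- the vertices -/
abbrev Vx := (Σ b : Br E h, Fin (w b)) ⊕ inn E h

variable {w}

/-- the node of a vertex -/
def pos : Vx w → Br E h × ℕ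
  | .inl x => (x.1, 0)
  | .inr u => u

theorem pos_ok (x : Vx w) : 2 * (pos x).2 < tp (pos x).1 := by
  rcases x with x | u
  · have := lv_tp x.1
    simp only [pos]; omega
  · exact (mem_inn.1 u.2).2

theorem pos_inj {x y : Vx w} (e : pos x = pos y) (h0 : (pos x).2 ≠ 0) : x = y := by
  rcases x with x | u <;> rcases y with y | v
  · exact (h0 rfl).elim
  · exact (h0 rfl).elim
  · exact (h0 (congrArg Prod.snd e)).elim
  · exact congrArg _ (Subtype.ext e)

/-- the distance of two vertices -/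
def del (x y : Vx w) : ℕ := if x = y then 0 else rho (pos x) (pos y)

theorem mu_symm (b c : Br E h) : mu b c = mu c b := by simp only [mu, eq_comm, max_comm]

theorem rho_symm (u v : Br E h × ℕ) : rho u v = rho v u := by
  simp only [rho, mu_symm u.1]; omega

theorem mu_cases (b c : Br E h) : (b = c ∧ mu b c = 1) ∨ (b ≠ c ∧ mu b c = max (lv b) (lv c)) := by
  unfold mu; split_ifs with e
  exacts [.inl ⟨e, rfl⟩, .inr ⟨e, rfl⟩]

theorem mu_ne {b c : Br E h} (e : b ≠ c) : tp b ≤ mu b c ∨ tp c ≤ mu b c := by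
  rw [mu, if_neg e]
  rcases lv_tp b with ⟨rfl, -⟩ | a
  · have := (lv_tp c).resolve_left fun k => e k.1.symm
    omega
  · omega

theorem mu_none (b : Br E h) : (lv b = 0 ∧ mu none b = 1) ∨ (2 ≤ lv b ∧ mu none b = lv b) := by
  cases b <;> simp [mu, lv]

theorem mu_pos (b c : Br E h) : 1 ≤ mu b c := by
  rcases mu_cases b c with a | a
  · omega
  · have := mu_ne a.1
    have := lv_tp b
    have := lv_tp c
    omega

theorem mu_ultra (b c d : Br E h) : mu b d ≤ max (mu b c) (mu c d) := by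
  have := mu_pos b c
  rcases mu_cases b d with a | a
  · omega
  rcases mu_cases b c with ⟨rfl, -⟩ | a1
  · omega
  rcases mu_cases c d with ⟨rfl, -⟩ | a2 <;> omega

theorem rho_pos {x y : Vx w} (e : x ≠ y) : 1 ≤ rho (pos x) (pos y) := by
  have a1 := pos_ok x
  have a2 := pos_ok y
  have a3 := mu_pos (pos x).1 (pos y).1
  by_cases k : (pos x).1 = (pos y).1
  · have : (pos x).2 = (pos y).2 → (pos x).2 = 0 := fun k' =>
      by_contra fun k0 => e (pos_inj (Prod.ext k k') k0)
    simp only [rho]; omega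
  · have := mu_ne k
    simp only [rho]; omega

theorem up {x y : Vx w} (e : 2 ≤ del x y) (l : (pos x).2 ≤ (pos y).2) :
    ∃ z, del x z = 1 ∧ del z y + 1 = del x y := by
  have xy : x ≠ y := fun k => by simp [del, k] at e
  rw [del, if_neg xy] at e ⊢
  have a1 := pos_ok x
  have a2 := pos_ok y
  have a3 := lv_tp (pos x).1
  have a4 := lv_tp (pos y).1
  have a5 := mu_cases (pos x).1 (pos y).1
  have key : ∀ z : Vx w, (pos z).2 = (pos x).2 + 1 → mu (pos x).1 (pos z).1 ≤ 2 * (pos x).2 + 2 →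
      max (mu (pos z).1 (pos y).1) (max (2 * (pos x).2 + 2) (2 * (pos y).2)) =
        max (mu (pos x).1 (pos y).1) (max (2 * (pos x).2) (2 * (pos y).2)) →
      del x z = 1 ∧ del z y + 1 = rho (pos x) (pos y) := fun z b1 b2 b3 => by
    have xz : x ≠ z := fun k => by rw [k] at b1; omega
    have zy : z ≠ y := fun k => by
      rw [k] at b1 b2
      simp only [rho] at e; omega
    rw [del, del, if_neg xz, if_neg zy]
    simp only [rho] at e ⊢
    omega
  simp only [rho] at e
  by_cases k : 2 * ((pos x).2 + 1) < tp (pos x).1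
  · refine ⟨.inr ⟨((pos x).1, (pos x).2 + 1), mem_inn.2 ⟨by simp, k⟩⟩, key _ rfl ?_ ?_⟩
    · show mu (pos x).1 (pos x).1 ≤ _
      simp [mu]
    · show max (mu (pos x).1 (pos y).1) _ = _
      omega
  · have a6 : (pos x).1 = (pos y).1 → tp (pos x).1 = tp (pos y).1 := fun k => by rw [k]
    have a7 := mu_none (pos x).1
    have a8 := mu_none (pos y).1
    rw [mu_symm] at a7
    refine ⟨.inr ⟨(none, (pos x).2 + 1), mem_inn.2 ⟨by simp, ?_⟩⟩, key _ rfl ?_ ?_⟩
    · show 2 * ((pos x).2 + 1) < E + 2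
      omega
    · show mu (pos x).1 none ≤ _
      omega
    · show max (mu none (pos y).1) _ = _
      rcases a5 with a5 | a5
      · have := a6 a5.1
        omega
      · omega

theorem graph [Nonempty (Vx w)] {n : ℕ} (hn : n = ∑ b, w b + #(inn E h)) :
    ∃ G : SimpleGraph (Fin n), G.Connected ∧ ∀ k, 2 ≤ k → 2 * (wiener G).coeff k =
      ∑ x : Vx w, ∑ y : Vx w, if k = rho (pos x) (pos y) then 1 else 0 := by
  obtain ⟨G, h1, h2⟩ := exists_graph (del (w := w))
    (fun x y => by simp only [del, eq_comm, rho_symm (pos x)])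
    (fun x y => ⟨fun e => by_contra fun k => by
      have := rho_pos k
      rw [del, if_neg k] at e; omega, fun e => if_pos e⟩)
    (fun x y z => by
      by_cases a : x = y
      · simp [a]
      by_cases b : y = z
      · simp [b]
      have := mu_ultra (pos x).1 (pos y).1 (pos z).1
      simp only [del, if_neg a, if_neg b, rho]
      split_ifs <;> omega)
    (fun x y e => by
      have s : del x y = del y x := by simp only [del, eq_comm, rho_symm (pos x)]
      rcases le_total (pos x).2 (pos y).2 with l | l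
      · exact .inl (up e l)
      · exact .inr (s ▸ up (s ▸ e) l)) (n := n) (by simp [hn])
  refine ⟨G, h1, fun k hk => ?_⟩
  have h3 := congrArg (fun p => coeff p k) h2
  simp only [coeff_add, finsetSum_coeff, coeff_X_pow, coeff_natCast_ite, two_mul] at h3
  rw [if_neg (by omega), Nat.cast_zero, add_zero] at h3
  rw [two_mul, h3]
  refine sum_congr rfl fun x _ => sum_congr rfl fun y _ => ?_
  by_cases e : x = y
  · rw [del, if_pos e, if_neg (by omega), if_neg]
    simp only [rho, e, mu, if_true]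
    omega
  · rw [del, if_neg e]

/-- the numbers of leaves -/
def wt (a : ℕ) (m : ℕ → ℕ) (x : ℕ → ℕ → ℕ) : Br E h → ℕ
  | none => a
  | some (k, i, true) => m k + x k i
  | some (k, i, false) => m k - x k i

theorem sum_wt {a : ℕ} {m : ℕ → ℕ} {x : ℕ → ℕ → ℕ} (hx : ∀ k < E, ∀ i < h, x k i ≤ m k)
    (r : Br E h → ℤ) (hr : ∀ b, r (flip b) = r b) :
    ∑ b, (wt a m x b : ℤ) * r b = ∑ b, (wt a m 0 b : ℤ) * r b := by
  simp only [Fintype.sum_option, Fintype.sum_prod_type, Fintype.sum_bool, wt]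
  refine congrArg _ (sum_congr rfl fun k _ => sum_congr rfl fun i _ => ?_)
  rw [show r (some (k, i, false)) = r (some (k, i, true)) from hr (some (k, i, true)),
    Nat.cast_sub (hx k k.2 i i.2)]
  simp only [Pi.zero_apply, Nat.sub_zero]
  push_cast
  ring

theorem sum_lv (v : Br E h → ℤ) (g : ℕ → ℤ) (φ : ℕ → ℤ)
    (hv : ∀ k : Fin E, ∑ i : Fin h, (v (some (k, i, true)) + v (some (k, i, false))) = g k) :
    ∑ b, v b * φ (lv b) = v none * φ 0 + ∑ j ∈ range E, g j * φ (j + 2) := by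
  simp only [Fintype.sum_option, Fintype.sum_prod_type, Fintype.sum_bool, lv, ← sum_mul, hv]
  rw [Fin.sum_univ_eq_sum_range (fun j => g j * φ (j + 2))]

theorem sum_le (a : ℕ) (m : ℕ → ℕ) {k : ℕ} (hk : k ≤ E) :
    ∑ b : Br E h, (wt a m 0 b : ℤ) * (if lv b < k + 2 then 1 else 0) =
      (a + 2 * h * ∑ j ∈ range k, m j : ℕ) := by
  rw [sum_lv _ (fun j => 2 * h * m j) (fun l => if l < k + 2 then 1 else 0)
    (fun j => by simp [wt]; ring), if_pos (by omega),
    ← sum_subset (range_subset_range.2 hk) fun j _ hj => by simp [mem_range.not.1 hj]]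
  push_cast
  rw [mul_one, mul_sum]
  exact congrArg _ (sum_congr rfl fun j hj => by simp [mem_range.1 hj])

theorem sum_sq {a : ℕ} {m : ℕ → ℕ} {x : ℕ → ℕ → ℕ} (hx : ∀ k < E, ∀ i < h, x k i ≤ m k)
    {k : ℕ} (hk : k < E) :
    ∑ b : Br E h, (wt a m x b : ℤ) ^ 2 * (if lv b = k + 2 then 1 else 0) =
      2 * h * (m k : ℤ) ^ 2 + 2 * (∑ i ∈ range h, x k i ^ 2 : ℕ) := by
  rw [sum_lv _ (fun j => 2 * h * (m j : ℤ) ^ 2 + 2 * (∑ i ∈ range h, x j i ^ 2 : ℕ))
    (fun l => if l = k + 2 then 1 else 0) fun j => ?_]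
  · simp [hk]
  rw [← Fin.sum_univ_eq_sum_range (fun i => x j i ^ 2), sum_congr rfl fun (i : Fin h) _ =>
    show _ = 2 * (m j : ℤ) ^ 2 + 2 * (x j i : ℤ) ^ 2 by
      simp only [wt]; rw [Nat.cast_sub (hx j j.2 i i.2)]; push_cast; ring]
  simp [sum_add_distrib, ← mul_sum]
  ring

theorem sum_vx (g : Br E h × ℕ → ℤ) :
    ∑ x : Vx w, g (pos x) = ∑ b, w b * g (b, 0) + ∑ u ∈ inn E h, g u := by
  simp [Fintype.sum_sum_type, Fintype.sum_sigma, pos, sum_attach (inn E h) g]

theorem leaves (v : Br E h → ℤ) (k : ℕ) :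
    ∑ b, ∑ c, v b * v c * (if k + 2 = rho (b, 0) (c, 0) then 1 else 0) =
      (∑ b, v b * if lv b < k + 1 + 2 then 1 else 0) ^ 2 -
        (∑ b, v b * if lv b < k + 2 then 1 else 0) ^ 2 -
        ∑ b, v b ^ 2 * if lv b = k + 2 then 1 else 0 := by
  simp only [sq, sum_mul_sum, ← sum_sub_distrib]
  refine sum_congr rfl fun b _ => ?_
  rw [← sum_ite_eq_of_mem univ b (fun c => v b * v c * if lv b = k + 2 then 1 else 0) (mem_univ _),
    ← sum_sub_distrib]
  refine sum_congr rfl fun c _ => ?_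
  rcases mu_cases b c with ⟨rfl, e⟩ | ⟨n, e⟩
  · simp only [rho, e, if_true]
    split_ifs <;> first | omega | ring
  · simp only [rho, e, if_neg n]
    split_ifs <;> first | omega | ring

theorem family (E h : ℕ) : ∃ I : ℕ, ∀ (n a : ℕ) (m : ℕ → ℕ), 0 < n →
    n = a + 2 * h * ∑ k ∈ range E, m k + I → ∃ R : ℕ → ℤ, (∀ k, 0 ≤ R k ∧ R k ≤ 2 * I * n) ∧
      ∀ x : ℕ → ℕ → ℕ, (∀ k < E, ∀ i < h, x k i ≤ m k) →
        ∃ G : SimpleGraph (Fin n), G.Connected ∧ (∀ k < E, 2 * (wiener G).coeff (k + 2) =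
          psi h (a + 2 * h * ∑ j ∈ range (k + 1), m j : ℕ) (m k) + R k -
            2 * (∑ i ∈ range h, x k i ^ 2 : ℕ)) ∧ ∀ k, E ≤ k → (wiener G).coeff (k + 2) = 0 := by
  refine ⟨#(inn E h), fun n a m n0 hn => ?_⟩
  let κ : ℕ → Br E h × ℕ → Br E h × ℕ → ℤ := fun k u v => if k + 2 = rho u v then 1 else 0
  let r : ℕ → Br E h → ℤ := fun k b => ∑ u ∈ inn E h, κ k (b, 0) u
  have κ0 : ∀ k u v, 0 ≤ κ k u v ∧ κ k u v ≤ 1 := fun k u v => by
    simp only [κ]; split_ifs <;> simp
  have s0 : ∀ k u, 0 ≤ ∑ v ∈ inn E h, κ k u v ∧ ∑ v ∈ inn E h, κ k u v ≤ #(inn E h) := fun k u =>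
    ⟨sum_nonneg fun v _ => (κ0 k u v).1, by
      simpa using sum_le_card_nsmul (inn E h) _ 1 fun v _ => (κ0 k u v).2⟩
  have hr : ∀ k b, r k (flip b) = r k b := fun k b =>
    (sum_equiv (flip.prodCongr (Equiv.refl ℕ)) (fun u => by simp [mem_inn, tp_flip])
      fun u _ => by simp [κ, rho, mu_flip]).symm
  have t0 : ∑ b : Br E h, (wt a m 0 b : ℤ) = (a + 2 * h * ∑ j ∈ range E, m j : ℕ) := by
    rw [← sum_le a m le_rfl]
    exact sum_congr rfl fun b _ => by
      rw [if_pos (by have := lv_tp b; omega), mul_one]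
  refine ⟨fun k => 2 * ∑ b, (wt a m 0 b : ℤ) * r k b + ∑ u ∈ inn E h, ∑ v ∈ inn E h, κ k u v,
    fun k => ⟨add_nonneg (mul_nonneg zero_le_two (sum_nonneg fun b _ =>
      mul_nonneg (Nat.cast_nonneg _) (s0 k _).1)) (sum_nonneg fun u _ => (s0 k u).1), ?_⟩,
    fun x hx => ?_⟩
  · have a1 : ∑ b, (wt a m 0 b : ℤ) * r k b ≤ ∑ b : Br E h, (wt a m 0 b : ℤ) * #(inn E h) :=
      sum_le_sum fun b _ => mul_le_mul_of_nonneg_left (s0 k _).2 (Nat.cast_nonneg _)
    have a2 := sum_le_card_nsmul (inn E h) _ _ fun u _ => (s0 k u).2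
    rw [← sum_mul, t0] at a1
    rw [nsmul_eq_mul] at a2
    have a3 : (0 : ℤ) ≤ #(inn E h) * #(inn E h) := by positivity
    rw [hn, Nat.cast_add]
    linarith
  have t1 : n = ∑ b : Br E h, wt a m x b + #(inn E h) := by
    have := sum_wt (a := a) hx (fun _ => 1) fun _ => rfl
    simp only [mul_one, t0] at this
    rw [hn]
    congr 1
    exact_mod_cast this.symm
  have : Nonempty (Vx (wt (E := E) (h := h) a m x)) :=
    Fintype.card_pos_iff.1 (n0.trans_eq (t1.trans (by simp)))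
  obtain ⟨G, h1, h2⟩ := graph t1
  refine ⟨G, h1, fun k hk => ?_, fun k hk => ?_⟩
  · have a1 := leaves (fun b : Br E h => (wt a m x b : ℤ)) k
    rw [sum_wt hx _ fun b => by rw [lv_flip], sum_wt hx _ fun b => by rw [lv_flip],
      sum_le a m hk, sum_le a m hk.le, sum_sq hx hk] at a1
    have a2 := sum_wt (a := a) hx (r k) (hr k)
    have a3 : ∑ u ∈ inn E h, ∑ b, (wt a m x b : ℤ) * κ k u (b, 0) =
        ∑ b, (wt a m x b : ℤ) * r k b := by
      rw [sum_comm]
      exact sum_congr rfl fun b _ => by simp only [r, κ, mul_sum, rho_symm (b, 0)]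
    rw [h2 _ (by omega), sum_congr rfl fun y _ => sum_vx (κ k (pos y)), sum_vx fun u =>
      ∑ b, (wt a m x b : ℤ) * κ k u (b, 0) + ∑ v ∈ inn E h, κ k u v]
    simp only [mul_add, sum_add_distrib]
    have a4 : ∑ b, (wt a m x b : ℤ) * ∑ c, (wt a m x c : ℤ) * κ k (b, 0) (c, 0) = _ :=
      Eq.trans (by simp only [mul_sum, ← mul_assoc, κ]) a1
    rw [a3, a2, a4, psi, sum_range_succ]
    push_cast
    ring
  · have a1 := h2 (k + 2) (by omega)
    rw [sum_eq_zero fun u _ => sum_eq_zero fun v _ => if_neg (by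
      have := pos_ok u
      have := pos_ok v
      have := lv_tp (pos u).1
      have := lv_tp (pos v).1
      have := mu_cases (pos u).1 (pos v).1
      simp only [rho]
      omega)] at a1
    omega

end Pool.Agent.P.MP_96b1db_co.Sh
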