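import Pool.Agent.P.MP_96b1db_co.Sh.Cat

/-! Every polynomial with positive coefficients has a multiple that is a Wiener polynomial. -/

open Polynomial Finset

namespace Pool.Agent.P.MP_96b1db_co.Sh

theorem realise (p : ℤ[X]) (h0 : p.coeff 0 = 0) (h1 : 1 ≤ p.natDegree)
    (hp : ∀ k, 1 ≤ k → k ≤ p.natDegree → 0 < p.coeff k) :
    ∃ (n : ℕ) (G : SimpleGraph (Fin n)) (c : ℕ), 2 ≤ n ∧ G.Connected ∧ 0 < c ∧
      wiener G = (c : ℤ[X]) * p := by
  obtain ⟨E, hE⟩ : ∃ E, p.natDegree = E + 1 := ⟨p.natDegree - 1, by omega⟩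
  have c1 : ((p.coeff 1).toNat : ℤ) = p.coeff 1 := Int.toNat_of_nonneg (hp 1 le_rfl h1).le
  have c2 : ∀ k < E, ((p.coeff (k + 2)).toNat : ℤ) = p.coeff (k + 2) := fun k hk =>
    Int.toNat_of_nonneg (hp _ (by omega) (by omega)).le
  obtain ⟨e, he⟩ := sizes E (p.coeff 1).toNat (fun k => (p.coeff (k + 2)).toNat)
    (by have := hp 1 le_rfl h1; omega) fun k hk => by
      have := hp (k + 2) (by omega) (by omega)
      omega
  obtain ⟨I, hI⟩ := family E (e + 4)
  obtain ⟨n, c, a, m, c0, n2, e1, e2, b⟩ := he I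
  obtain ⟨R, hR, hG⟩ := hI n a m (by omega) e1
  obtain ⟨G0, -, g0, -⟩ := hG 0 fun _ _ _ _ => Nat.zero_le _
  choose x hx using fun k => squares e ((wiener G0).coeff (k + 2) - c * p.coeff (k + 2)).toNat
  have k1 : ∀ k < E, 0 ≤ (wiener G0).coeff (k + 2) - c * p.coeff (k + 2) ∧
      (wiener G0).coeff (k + 2) - c * p.coeff (k + 2) ≤ (m k : ℤ) ^ 2 := fun k hk => by
    have a1 := g0 k hk
    have a2 := b k hk
    have a3 := hR k
    simp only [Pi.zero_apply, Nat.cast_mul, c2 k hk] at a1 a2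
    simp only [ne_eq, OfNat.ofNat_ne_zero, not_false_eq_true, zero_pow, sum_const_zero,
      Nat.cast_zero] at a1
    constructor <;> linarith [a2.1, a2.2, a3.1, a3.2]
  obtain ⟨G, hc, g1, g2⟩ := hG x fun k hk i hi => by
    have a1 := single_le_sum (f := fun i => x k i ^ 2) (fun _ _ => Nat.zero_le _) (mem_range.2 hi)
    rw [hx] at a1
    have a2 := k1 k hk
    refine (Nat.pow_le_pow_iff_left two_ne_zero).1 (a1.trans ?_)
    exact Int.toNat_le.2 (by exact_mod_cast a2.2)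
  refine ⟨n, G, c, n2, hc, c0, ?_⟩
  have k2 : wiener G - (c : ℤ[X]) * p = C ((wiener G - (c : ℤ[X]) * p).coeff 1) * X := by
    ext k
    rcases k with _ | _ | k
    · simp [coeff_zero hc, h0]
    · simp
    · rw [coeff_C_mul, coeff_X_of_ne_one (by omega), mul_zero, coeff_sub, ← C_eq_natCast,
        coeff_C_mul]
      show (wiener G).coeff (k + 2) - c * p.coeff (k + 2) = 0
      by_cases hk : k < E
      · have a1 := g0 k hk
        have a2 := g1 k hk
        rw [hx, Int.toNat_of_nonneg (k1 k hk).1] at a2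
        simp only [Pi.zero_apply, ne_eq, OfNat.ofNat_ne_zero, not_false_eq_true, zero_pow,
          sum_const_zero, Nat.cast_zero] at a1
        linarith
      · rw [g2 k (by omega), coeff_eq_zero_of_natDegree_lt (by omega), mul_zero, sub_zero]
  have k3 := congrArg (eval 1) (two_mul_wiener G)
  have k4 := congrArg (eval 1) k2
  have k5 : p.eval 1 = p.coeff 1 + ∑ k ∈ range E, ((p.coeff (k + 2)).toNat : ℤ) := by
    rw [eval_eq_sum_range, hE, sum_range_succ', sum_range_succ', h0, sum_congr rfl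
      fun k hk => c2 k (mem_range.1 hk)]
    simp only [one_pow, mul_one, add_zero]
    exact add_comm _ _
  simp only [eval_add, eval_mul, eval_natCast, eval_finsetSum, eval_pow, eval_X, one_pow, sum_const,
    card_univ, Fintype.card_fin, nsmul_eq_mul, mul_one, eval_ofNat, eval_sub, eval_C] at k3 k4
  zify at e2
  rw [c1, ← k5] at e2
  rw [← sub_eq_zero, k2, ← k4, show eval 1 (wiener G) - c * eval 1 p = 0 by linarith]
  simp

theorem shape {n : ℕ} {G : SimpleGraph (Fin n)} (hG : G.Connected) {c : ℕ} (c0 : 0 < c) {p : ℤ[X]}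
    (e : wiener G = (c : ℤ[X]) * p) :
    p.coeff 0 = 0 ∧ ∀ k, 0 ≤ p.coeff k ∧ (1 ≤ k → (0 < p.coeff k ↔ k ≤ G.diam)) := by
  have c1 : (0 : ℤ) < c := by exact_mod_cast c0
  have h : ∀ k, (wiener G).coeff k = c * p.coeff k := fun k => by
    rw [e, ← C_eq_natCast, coeff_C_mul]
  refine ⟨(mul_eq_zero.1 ((h 0).symm.trans (coeff_zero hG))).resolve_left c1.ne', fun k =>
    ⟨(mul_nonneg_iff_of_pos_left c1).1 (h k ▸ coeff_nonneg G k), fun hk => ?_⟩⟩
  rw [← coeff_pos hG hk, h, mul_pos_iff_of_pos_left c1]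

theorem diam_eq {n : ℕ} {G : SimpleGraph (Fin n)} (n2 : 2 ≤ n) (hG : G.Connected) {c : ℕ}
    (c0 : 0 < c) {p : ℤ[X]} (e : wiener G = (c : ℤ[X]) * p) :
    1 ≤ G.diam ∧ G.diam = p.natDegree := by
  obtain ⟨-, h⟩ := shape hG c0 e
  have : Nontrivial (Fin n) := Fin.nontrivial_iff_two_le.2 n2
  have d : 1 ≤ G.diam := Nat.pos_of_ne_zero fun k =>
    (SimpleGraph.diam_eq_zero.1 k).elim (SimpleGraph.connected_iff_ediam_ne_top.mp hG)
      (not_subsingleton _)
  refine ⟨d, le_antisymm (le_natDegree_of_ne_zero (((h _).2 d).2 le_rfl).ne') ?_⟩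
  refine natDegree_le_iff_coeff_eq_zero.2 fun k hk => le_antisymm (not_lt.1 fun l => ?_) (h k).1
  exact hk.not_ge (((h k).2 (by omega)).1 l)

end Pool.Agent.P.MP_96b1db_co.Sh
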