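import Pool.Agent.P.MP_96b1db_co.TreeMetric

/-! Graphs given by their distance function, and the coefficients of the Wiener polynomial. -/

open Polynomial Finset

namespace Pool.Agent.P.MP_96b1db_co.Sh

theorem exists_graph {V : Type} [Fintype V] [Nonempty V] (f : V → V → ℕ)
    (symm : ∀ u v, f u v = f v u) (zero : ∀ u v, f u v = 0 ↔ u = v)
    (tri : ∀ u v w, f u w ≤ f u v + f v w)
    (geod : ∀ u v, 2 ≤ f u v → (∃ w, f u w = 1 ∧ f w v + 1 = f u v) ∨
      ∃ w, f v w = 1 ∧ f w u + 1 = f u v) {n : ℕ} (hn : Fintype.card V = n) :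
    ∃ G : SimpleGraph (Fin n), G.Connected ∧
      2 * wiener G + (n : ℤ[X]) = ∑ u, ∑ v, (X : ℤ[X]) ^ f u v := by
  let H : SimpleGraph V :=
    { Adj := fun u v => f u v = 1
      symm := ⟨fun u v h => by rw [symm]; exact h⟩
      loopless := ⟨fun u h => by have := (zero u u).2 rfl; omega⟩ }
  have h1 : ∀ k u v, f u v = k → ∃ p : H.Walk u v, p.length = k := by
    intro k
    induction k with
    | zero =>
      intro u v h
      obtain rfl := (zero u v).1 h
      exact ⟨.nil, rfl⟩
    | succ k ih =>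
      intro u v h
      by_cases h2 : 2 ≤ f u v
      · rcases geod u v h2 with ⟨w, a, b⟩ | ⟨w, a, b⟩
        · obtain ⟨p, hp⟩ := ih w v (by omega)
          exact ⟨.cons (show H.Adj u w from a) p, by simp [hp]⟩
        · obtain ⟨p, hp⟩ := ih w u (by omega)
          exact ⟨(SimpleGraph.Walk.cons (show H.Adj v w from a) p).reverse, by simp [hp]⟩
      · exact ⟨.cons (show H.Adj u v from show f u v = 1 by omega) .nil, by simp; omega⟩
  have h2 : ∀ {u v} (p : H.Walk u v), f u v ≤ p.length := by
    intro u v p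
    induction p with
    | nil => exact ((zero _ _).2 rfl).le
    | @cons a b c hab p ih =>
      have h1 : f a b = 1 := hab
      have := tri a b c
      simp only [SimpleGraph.Walk.length_cons]
      omega
  let e := (Fintype.equivFinOfCardEq hn).symm
  let φ : H.comap e ≃g H := SimpleGraph.Iso.comap e H
  have h3 : H.Connected := ⟨fun u v => (h1 _ u v rfl).choose.reachable⟩
  refine ⟨H.comap e, φ.connected_iff.2 h3, ?_⟩
  rw [two_mul_wiener]
  refine Fintype.sum_equiv e _ _ fun u => Fintype.sum_equiv e _ _ fun v => ?_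
  congr 1
  obtain ⟨p, hp⟩ := h1 _ (e u) (e v) rfl
  refine le_antisymm ?_ ?_
  · have := SimpleGraph.dist_le ((p.map φ.symm.toHom).copy (φ.symm_apply_apply u)
      (φ.symm_apply_apply v))
    rwa [SimpleGraph.Walk.length_copy, SimpleGraph.Walk.length_map, hp] at this
  · obtain ⟨q, hq⟩ := ((φ.connected_iff.2 h3) u v).exists_walk_length_eq_dist
    have := h2 (q.map φ.toHom)
    rwa [SimpleGraph.Walk.length_map, hq] at this

variable {n : ℕ} (G : SimpleGraph (Fin n))

theorem coeff_w (k : ℕ) : (wiener G).coeff k =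
    ∑ u : Fin n, ∑ v : Fin n with u < v, if k = G.dist u v then 1 else 0 := by
  simp only [wiener, finsetSum_coeff, coeff_X_pow]

theorem coeff_nonneg (k : ℕ) : 0 ≤ (wiener G).coeff k := by
  rw [coeff_w]; positivity

variable {G} (hG : G.Connected)

include hG

theorem coeff_zero : (wiener G).coeff 0 = 0 := by
  rw [coeff_w]
  refine sum_eq_zero fun u _ => sum_eq_zero fun v hv => if_neg ?_
  rw [eq_comm, hG.dist_eq_zero_iff]
  exact (mem_filter.mp hv).2.ne

theorem ivt (u : Fin n) (k : ℕ) {w v : Fin n} (p : G.Walk w v) (h1 : G.dist u w ≤ k)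
    (h2 : k ≤ G.dist u v) : ∃ z, G.dist u z = k := by
  induction p with
  | nil => exact ⟨_, le_antisymm h1 h2⟩
  | @cons a b c hab p ih =>
    rcases h1.eq_or_lt with h | h
    · exact ⟨a, h⟩
    · have := hG.dist_triangle (u := u) (v := a) (w := b)
      rw [SimpleGraph.dist_eq_one_iff_adj.2 hab] at this
      exact ih (by omega) h2

theorem coeff_pos {k : ℕ} (hk : 1 ≤ k) : 0 < (wiener G).coeff k ↔ k ≤ G.diam := by
  have := hG.nonempty
  constructor
  · intro h
    by_contra h1
    refine h.ne' ?_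
    rw [coeff_w]
    refine sum_eq_zero fun u _ => sum_eq_zero fun v _ => if_neg fun e => h1 ?_
    exact e ▸ SimpleGraph.dist_le_diam (SimpleGraph.connected_iff_ediam_ne_top.mp hG)
  · intro h
    obtain ⟨u, v, e⟩ := G.exists_dist_eq_diam
    obtain ⟨p⟩ := hG u v
    obtain ⟨z, hz⟩ := ivt hG u k p (by simp) (e ▸ h)
    have key : ∀ a b : Fin n, a < b → G.dist a b = k → 0 < (wiener G).coeff k := fun a b l d => by
      rw [coeff_w]
      refine sum_pos' (fun _ _ => by positivity) ⟨a, mem_univ _, ?_⟩
      exact sum_pos' (fun _ _ => by positivity) ⟨b, by simpa using l, by simp [d]⟩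
    rcases lt_trichotomy u z with l | l | l
    · exact key u z l hz
    · subst l; simp at hz; omega
    · exact key z u l (G.dist_comm ▸ hz)

end Pool.Agent.P.MP_96b1db_co.Sh
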